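import Pool.Agent.W713.TopNum

set_option autoImplicit false

namespace Pool.Agent.Results.MP_c3e474_lc.NonMagicNearPowers

/-- Over a two-letter alphabet: if `3 ≤ K ≤ n`, `M ≥ K - 1` and the number of binary digits of `M`
plus the number of its digits `1` is at most `K`, then `2 ^ K + n - 1 - M` is not magic for `n`.
In particular every `α` with `2 ^ K + n - 2 ^ ⌊K / 2⌋ ≤ α ≤ 2 ^ K + n - K` is not magic for `n`
(for `K = n`: every `α` with `2 ^ n - 2 ^ ⌊n / 2⌋ + n ≤ α ≤ 2 ^ n`). -/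
theorem result :
    (∀ n K M : ℕ, 3 ≤ K → K ≤ n → K ≤ M + 1 →
      (Nat.digits 2 M).length + (Nat.digits 2 M).sum ≤ K →
      ∃ A : NFA (Fin 2) (Fin n), (∃ q : Fin n, A.start = {q}) ∧
        (∀ m : ℕ, m < n → ∀ N : NFA (Fin 2) (Fin m),
            (∃ q : Fin m, N.start = {q}) → N.accepts ≠ A.accepts) ∧
        Nat.card (Set.range (fun u : List (Fin 2) =>
            ({w : List (Fin 2) | u ++ w ∈ A.accepts} : Set (List (Fin 2))))) =
          2 ^ K + n - 1 - M) ∧
    (∀ n K α : ℕ, 3 ≤ K → K ≤ n → 2 ^ K + n ≤ α + 2 ^ (K / 2) → α + K ≤ 2 ^ K + n →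
      ∃ A : NFA (Fin 2) (Fin n), (∃ q : Fin n, A.start = {q}) ∧
        (∀ m : ℕ, m < n → ∀ N : NFA (Fin 2) (Fin m),
            (∃ q : Fin m, N.start = {q}) → N.accepts ≠ A.accepts) ∧
        Nat.card (Set.range (fun u : List (Fin 2) =>
            ({w : List (Fin 2) | u ++ w ∈ A.accepts} : Set (List (Fin 2))))) = α) := by
  refine ⟨fun n K M h1 h2 h3 h4 => Pool.Agent.W713.Magic.att_near n K M h1 h2 h3 h4, ?_⟩
  intro n K α h1 h2 h3 h4
  have h5 := Pool.Agent.W713.Magic.att_near n K (2 ^ K + n - 1 - α) h1 h2 (by omega) ?_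
  · have h6 : 2 ^ K + n - 1 - (2 ^ K + n - 1 - α) = α := by omega
    rw [h6] at h5
    exact h5
  · unfold Pool.Agent.W713.Magic.bl
    have h6 : 2 ^ K + n - 1 - α < 2 ^ (K / 2) := by
      have : 0 < 2 ^ (K / 2) := by positivity
      omega
    have h7 : (Nat.digits 2 (2 ^ K + n - 1 - α)).length ≤ K / 2 :=
      (Nat.digits_length_le_iff (by norm_num) _).2 h6
    have h8 : (Nat.digits 2 (2 ^ K + n - 1 - α)).sum ≤
        (Nat.digits 2 (2 ^ K + n - 1 - α)).length := by
      have := List.sum_le_card_nsmul (Nat.digits 2 (2 ^ K + n - 1 - α)) 1 (by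
        intro x hx
        have := Nat.digits_lt_base (by norm_num : 1 < 2) hx
        omega)
      simpa using this
    omega

end Pool.Agent.Results.MP_c3e474_lc.NonMagicNearPowers
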