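import Pool.Agent.W713.MagicJ

set_option autoImplicit false

namespace Pool.Agent.Results.MP_c3e474_lc.NonMagicRange

/-- Over a two-letter alphabet no number `α` with `n ≤ α ≤ (5/64) * 2 ^ n` is magic for `n`: there is a
minimal `n`-state nondeterministic automaton with one initial state whose minimal complete
deterministic automaton (= number of left quotients of its language) has exactly `α` states. -/
theorem result :
    ∀ n : ℕ, 1 ≤ n → ∀ α : ℕ, n ≤ α → 64 * α ≤ 5 * 2 ^ n →
      ∃ M : NFA (Fin 2) (Fin n), (∃ q : Fin n, M.start = {q}) ∧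
        (∀ m : ℕ, m < n → ∀ N : NFA (Fin 2) (Fin m),
            (∃ q : Fin m, N.start = {q}) → N.accepts ≠ M.accepts) ∧
        Nat.card (Set.range (fun u : List (Fin 2) =>
            ({w : List (Fin 2) | u ++ w ∈ M.accepts} : Set (List (Fin 2))))) = α :=
  fun n hn α h1 h2 => Pool.Agent.W713.Magic.att_all n α hn h1 h2

end Pool.Agent.Results.MP_c3e474_lc.NonMagicRange
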